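import Pool.Agent.Results.MP_e361f4_lc.Completeness
import Pool.Agent.Results.MP_e361f4_lc.MixedInteger
import Pool.Agent.Results.MP_e361f4_lc.SubtourBranchAndCut
import Pool.Agent.Results.MP_e361f4_lc.MonotoneRealLower
import Pool.Agent.C75W.M2
import Pool.Agent.C75W.S
import Pool.Agent.Helper39.AKY.L
import Pool.Agent.Helper39.CK.NFQK
import Pool.Agent.Helper50.CXA.Asm
import Pool.Agent.Helper57.KNC.PX
import Pool.Agent.Helper65.KQ.Chk
import Pool.Agent.Helper81.MIT.LinX
import Pool.Agent.Helper84.KNP.KG6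
import Pool.Agent.Helper84.XL.O
import Pool.Agent.Helper84.XL.X
import Pool.Agent.Results.MP_c75db0_gt.MonotoneRightAngle
import Pool.Agent.Results.MP_c7c9a4_al.TreeLikeSchutz
import Pool.Agent.Results.MP_c84e8f_co.Cographs
import Pool.Agent.Results.MP_c84e8f_co.Joins
import Pool.Agent.Results.MP_c87a99_al.FiniteOverCommutative
import Pool.Agent.Results.MP_c87a99_al.HomogeneousDecomposition
import Pool.Agent.Results.MP_c8969c_ag.FlagCriterion
import Pool.Agent.Results.MP_c8dff2_co.LogSquaredGap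
import Pool.Agent.Results.MP_c99e7e_pr.CoverCostCubic
import Pool.Agent.Results.MP_c9c10f_co.AllColouringsTwo
import Pool.Agent.Results.MP_c9c10f_co.QuadraticDirections
import Pool.Agent.Results.MP_c9c10f_co.ThreeAdicDirections
import Pool.Agent.Results.MP_ca50fe_co.ConvexPartitions
import Pool.Agent.Results.MP_cb0591_al.DividesSix
import Pool.Agent.Results.MP_cb21b9_gt.AllNegative
import Pool.Agent.Results.MP_cb2e2a_lc.RankThreeHard
import Pool.Agent.Results.MP_cb732f_ag.Criterion
import Pool.Agent.Results.MP_cb732f_ag.GeneralForm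
import Pool.Agent.Results.MP_cb732f_ag.GeneralG
import Pool.Agent.Results.MP_cb732f_ag.ManyDerivatives
import Pool.Agent.Results.MP_cbd396_lc.LogGap
import Pool.Agent.Results.MP_cbe1cc_nt.MonotonePrime
import Pool.Agent.Results.MP_ce4989_al.DegreeTwelve
import Pool.Agent.Results.MP_ce4989_al.DegreeTwelveAllFields
import Pool.Agent.Results.MP_ce9a4f_an.NoEigenvalue
import Pool.Agent.Results.MP_cec940_gt.Parity
import Pool.Agent.Results.MP_d0789b_ag.BoundedComponents
import Pool.Agent.Results.MP_d09f5b_an.SpectralPermanence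
import Pool.Agent.Results.MP_d0f9b4_an.SmallProducts
import Pool.Agent.Results.MP_d1da17_co.EliahouAdjoin
import Pool.Agent.Results.MP_d210aa_gt.FaceInequalityThreeHalves
import Pool.Agent.Results.MP_d44cfb_ag.SpreadExceedsDim
import Pool.Agent.Results.MP_d50faf_ag.SpecialHexahedron
import Pool.Agent.Results.MP_d51828_nt.Integrality
import Pool.Agent.Results.MP_d51828_nt.Parity
import Pool.Agent.Results.MP_d52cf1_gt.ComplexBanach
import Pool.Agent.Results.MP_d59a59_lc.MeasurableNotGoldstern
import Pool.Agent.Results.MP_d616f8_nt.AllVersusSquarefree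
import Pool.Agent.Results.MP_d616f8_nt.CoprimeEquivalence
import Pool.Agent.Results.MP_d632dd_co.PathEdge
import Pool.Agent.Results.MP_d6b6f7_nt.EquivalentPair
import Pool.Agent.Results.MP_d7ed3f_ag.AdjointSummand
import Pool.Agent.Results.MP_d7ed3f_ag.LargeSummand
import Pool.Agent.Results.MP_d7ed3f_ag.TwoTorsionTypeA
import Pool.Agent.Results.MP_d82055_ag.EqualCharacteristic
import Pool.Agent.Results.MP_d97c10_lc.FiniteModelProperty
import Pool.Agent.Results.MP_d97c10_lc.LocalFiniteness
import Pool.Agent.Results.MP_dd7d0c_lc.PolyTime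
import Pool.Agent.Results.MP_de6334_lc.BoundedDimension
import Pool.Agent.Results.MP_de6334_lc.LocalReading
import Pool.Agent.Results.MP_de8692_ag.MaxUnipotentMotives
import Pool.Agent.Results.MP_df0ee7_ag.EffectiveCone
import Pool.Agent.Results.MP_df3f9a_al.ProperFactorsUnipotent
import Pool.Agent.Results.MP_dfcdcf_gt.VirtualNotInjective
import Pool.Agent.Results.MP_dfcdcf_gt.WeldedNotInjective
import Pool.Agent.Results.MP_e0a484_co.AlmostAllCubic
import Pool.Agent.Results.MP_e0e6b6_al.TowerDichotomy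
import Pool.Agent.Results.MP_e24612_gt.RadialMeanOneNotCovariogram
import Pool.Agent.Results.MP_e3b71d_lc.MoralEqualsTruthful
import Pool.Agent.Results.MP_e4073d_mp.DoubleEigenvalue
import Pool.Agent.Results.MP_e4662f_lc.FourPairs
import Pool.Agent.Results.MP_e4cd9c_an.AngularCriterion
import Pool.Agent.Results.MP_e4cd9c_an.CommonMajorants
import Pool.Agent.Results.MP_e4cd9c_an.ComparableCoordinates
import Pool.Agent.Results.MP_e4cd9c_an.KernelCondition
import Pool.Agent.Results.MP_e500b6_co.LatticeSubsets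
import Pool.Agent.Results.MP_e500b6_co.UniformProgressions
import Pool.Agent.Results.MP_e50e6d_nt.PredecessorDensity
import Pool.Agent.Results.MP_e50e6d_nt.UniformLinear
import Pool.Agent.Results.MP_e73184_al.BandClassification
import Pool.Agent.Results.MP_e73184_al.TraceCounterexample
import Pool.Agent.Results.MP_e7dc11_co.OrientationDependence
import Pool.Agent.Results.MP_e8ee11_co.KomlosTheorem
import Pool.Agent.Results.MP_e96806_co.FinalSegment
import Pool.Agent.Results.MP_e96806_co.InitialSegment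
import Pool.Agent.Results.MP_e96806_co.WeightedDegrees
import Pool.Agent.Results.MP_eb5608_co.Brace40
import Pool.Agent.Results.MP_efd95c_co.TouchingDisks
import Pool.Agent.Results.MP_f13728_an.AllMorse
import Pool.Agent.Results.MP_f30308_lc.ClosureReconstruction
import Pool.Agent.Results.MP_f308f8_gt.EffectiveTCEqFour
import Pool.Agent.Results.MP_f39c46_an.JanowskiNbhd
import Pool.Agent.Results.MP_f4bae3_lc.BorelLimitClosure
import Pool.Agent.Results.MP_f4bae3_lc.HatLimitFails
import Pool.Agent.Results.MP_f4bae3_lc.IteratedLimit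
import Pool.Agent.Results.MP_f59665_co.AbsoluteBoundFails
import Pool.Agent.Results.MP_f59665_co.EightThirds
import Pool.Agent.Results.MP_f59665_co.SubExp
import Pool.Agent.Results.MP_f59665_co.VCBound
import Pool.Agent.Results.MP_f7e214_ag.LogCalabiYau
import Pool.Agent.Results.MP_f81051_co.TameClasses
import Pool.Agent.Results.MP_f89ea0_lc.FiniteSignature
import Pool.Agent.Results.MP_f8e2d3_co.AllHosts
import Pool.Agent.Results.MP_f8e2d3_co.EveryOrientedPath
import Pool.Agent.Results.MP_f8e2d3_co.FewTransitiveTriangles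
import Pool.Agent.Results.MP_f8e2d3_co.OneSidedDegrees
import Pool.Agent.Results.MP_f8e877_nt.PosedConjFalse
import Pool.Agent.Results.MP_f90738_co.FewExceptions
import Pool.Agent.Results.MP_fa7dd9_pr.SlowRefreshSpeed
import Pool.Agent.Results.MP_fab4a1_co.BoundedDegree
import Pool.Agent.Results.MP_fab4a1_co.PathWidthLower
import Pool.Agent.Results.MP_fab4a1_co.PathWidthPolynomial
import Pool.Agent.Results.MP_fb02e9_lc.IMeager
import Pool.Agent.Results.MP_fbf723_an.NoBoundedRep
import Pool.Agent.Results.MP_fcb106_co.PolynomialUpperBound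
import Pool.Agent.Results.MP_fcb106_co.PowersOfTwo
import Pool.Agent.Results.MP_fcb106_co.SuperquadraticLowerBound
import Pool.Agent.Results.MP_ffd784_gt.CHSquareDSeparable
import Pool.Agent.Helper1.DO.C6
import Pool.Agent.Helper1.DO.W5l
import Pool.Agent.Helper1.E5.SPKCore2
import Pool.Agent.Helper1.EM.MTX
import Pool.Agent.Helper1.LCU.MG
import Pool.Agent.Helper11.DO.E11
import Pool.Agent.Helper11.EM.SPS
import Pool.Agent.Helper12.LCU.GL
import Pool.Agent.Helper12.TC8.SRC
import Pool.Agent.Helper13.MI.STEP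
import Pool.Agent.Helper14.MT10.ONE
import Pool.Agent.Helper14.MT8.FUL8
import Pool.Agent.Helper15.E5.FIN5
import Pool.Agent.Helper15.PO.ACS
import Pool.Agent.Helper15.PO.REX
import Pool.Agent.Helper16.ES.Arm
import Pool.Agent.Helper16.ES.DL
import Pool.Agent.Helper16.LCU.GD
import Pool.Agent.Helper16.LCU.REV
import Pool.Agent.Helper16.LCU.TP
import Pool.Agent.Helper17.DO.E12
import Pool.Agent.Helper17.DO.E14
import Pool.Agent.Helper17.DO.E2
import Pool.Agent.Helper17.DO.T11
import Pool.Agent.Helper17.Etsp.Use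
import Pool.Agent.Helper18.TC8.MAT0
import Pool.Agent.Helper19.ES.FN
import Pool.Agent.Helper19.LCU.MAJ
import Pool.Agent.Helper2.DO.D18
import Pool.Agent.Helper2.MT10.LIE9
import Pool.Agent.Helper2.TC8.NATR
import Pool.Agent.Helper2.TC8.STAR
import Pool.Agent.Helper20.PO.PALL
import Pool.Agent.Helper21.DO.D8
import Pool.Agent.Helper21.EM.FINB
import Pool.Agent.Helper21.EM.PT22
import Pool.Agent.Helper21.MT7.IrrA
import Pool.Agent.Helper21.MT7.LIN2
import Pool.Agent.Helper21.MT8.LIN8
import Pool.Agent.Helper21.MT9.ABE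
import Pool.Agent.Helper21.RM.HDG7
import Pool.Agent.Helper21.WD.EIGM
import Pool.Agent.Helper21.WD.FULM
import Pool.Agent.Helper21.WD.HSGW
import Pool.Agent.Helper21.WD.MAINM
import Pool.Agent.Helper21.WD.SPB
import Pool.Agent.Helper21.WD.TNN2
import Pool.Agent.Helper21.WD.TOR5
import Pool.Agent.Helper21.WD.TOSEM
import Pool.Agent.Helper21.WD.V0I
import Pool.Agent.Helper21.WE.FULN
import Pool.Agent.Helper21.WE.GC5N
import Pool.Agent.Helper21.WE.GCN
import Pool.Agent.Helper21.WE.GEN0
import Pool.Agent.Helper21.WE.HSGN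
import Pool.Agent.Helper21.WE.MAINN
import Pool.Agent.Helper21.WE.SC2N
import Pool.Agent.Helper21.WE.TOPH
import Pool.Agent.Helper21.WE.WT5N
import Pool.Agent.Helper22.DO.T8
import Pool.Agent.Helper22.E5.FOLDP
import Pool.Agent.Helper22.E5.KYE
import Pool.Agent.Helper22.MI.Pub
import Pool.Agent.Helper22.TC8.COMB
import Pool.Agent.Helper22.TC8.FINAL
import Pool.Agent.Helper23.DO.X8
import Pool.Agent.Helper23.PO.LBC
import Pool.Agent.Helper24.SE.LIT
import Pool.Agent.Helper25.EM.NRM
import Pool.Agent.Helper25.EM.RIB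
import Pool.Agent.Helper25.LCU.BC
import Pool.Agent.Helper25.TC8.SUM3
import Pool.Agent.Helper26.BC.ADD
import Pool.Agent.Helper26.DO.X1W
import Pool.Agent.Helper26.E5.VL
import Pool.Agent.Helper26.E5.WWR
import Pool.Agent.Helper26.LCU.TPR
import Pool.Agent.Helper26.PO.FIN
import Pool.Agent.Helper26.PO.PLOOK
import Pool.Agent.Helper26.SE.CN3
import Pool.Agent.Helper27.BC.EVC
import Pool.Agent.Helper27.DO.D6
import Pool.Agent.Helper28.PO.PFLM
import Pool.Agent.Helper3.MT7.LOG7
import Pool.Agent.Helper3.MT7.SIM7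
import Pool.Agent.Helper3.MT9.LGP
import Pool.Agent.Helper3.WD.ENG
import Pool.Agent.Helper3.WE.SSL
import Pool.Agent.Helper30.BC.EV
import Pool.Agent.Helper30.SE.FRP
import Pool.Agent.Helper31.Grid.Cell
import Pool.Agent.Helper31.SE.CYC
import Pool.Agent.Helper31.SE.GAP
import Pool.Agent.Helper32.SE.BOX
import Pool.Agent.Helper33.E5.WNORM
import Pool.Agent.Helper33.SE.PD2
import Pool.Agent.Helper34.DO.D11
import Pool.Agent.Helper34.ES.LF
import Pool.Agent.Helper35.BC.EVB
import Pool.Agent.Helper35.DO.D16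
import Pool.Agent.Helper35.E5.EX
import Pool.Agent.Helper35.E5.FLAT
import Pool.Agent.Helper35.E5.RQ
import Pool.Agent.Helper35.PO.PEQ
import Pool.Agent.Helper35.SE.MRK
import Pool.Agent.Helper36.E5.ACT
import Pool.Agent.Helper36.E5W.HTEST
import Pool.Agent.Helper36.E5W.INHUB
import Pool.Agent.Helper36.E5W.TOURL
import Pool.Agent.Helper36.MT10.ADD
import Pool.Agent.Helper36.MT8.CLIF8
import Pool.Agent.Helper36.WD.ALG
import Pool.Agent.Helper36.WD.TNN1
import Pool.Agent.Helper37.DO.C1
import Pool.Agent.Helper37.Grid.UseConv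
import Pool.Agent.Helper38.BC.FRM
import Pool.Agent.Helper38.E5.GEND
import Pool.Agent.Helper38.LCU.HL
import Pool.Agent.Helper38.PO.PCON
import Pool.Agent.Helper39.DO.W2
import Pool.Agent.Helper39.EM.GNT
import Pool.Agent.Helper39.EM.TWO2
import Pool.Agent.Helper39.LCU.GP
import Pool.Agent.Helper4.LCU.CNV
import Pool.Agent.Helper40.LCU.K2
import Pool.Agent.Helper40.LCU.UF2
import Pool.Agent.Helper41.DO.D2
import Pool.Agent.Helper41.DO.E3
import Pool.Agent.Helper41.DO.X4b
import Pool.Agent.Helper41.MI.AUE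
import Pool.Agent.Helper41.MI.DEN
import Pool.Agent.Helper41.SE.MPD
import Pool.Agent.Helper41.SE.UNS
import Pool.Agent.Helper42.DO.D14
import Pool.Agent.Helper43.LCU.MJ
import Pool.Agent.Helper44.BC.EVD
import Pool.Agent.Helper44.BC.PAIR
import Pool.Agent.Helper44.BC.TR
import Pool.Agent.Helper44.PO.PLAB
import Pool.Agent.Helper44.SE.XOR
import Pool.Agent.Helper45.DO.C3
import Pool.Agent.Helper45.DO.C7a
import Pool.Agent.Helper45.ES.LA
import Pool.Agent.Helper46.LCU.K1
import Pool.Agent.Helper46.LCU.PLC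
import Pool.Agent.Helper46.PO.BOX
import Pool.Agent.Helper46.PO.XIU
import Pool.Agent.Helper48.LCU.MU
import Pool.Agent.Helper48.LCU.UF3
import Pool.Agent.Helper48.PO.PWD
import Pool.Agent.Helper48.SE.CFL
import Pool.Agent.Helper49.LCU.RR1
import Pool.Agent.Helper5.EM.AUT
import Pool.Agent.Helper5.LCU.MAIN
import Pool.Agent.Helper5.MI.ALT
import Pool.Agent.Helper5.MI.CVX
import Pool.Agent.Helper5.MI.EQS
import Pool.Agent.Helper5.MI.LEN
import Pool.Agent.Helper5.MI.PIE
import Pool.Agent.Helper5.MI.RED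
import Pool.Agent.Helper5.MT8.MAIN8
import Pool.Agent.Helper5.MT8.PRO8
import Pool.Agent.Helper5.MT9.MAIN9
import Pool.Agent.Helper5.WD.DIM
import Pool.Agent.Helper50.DO.D1
import Pool.Agent.Helper50.DO.SM
import Pool.Agent.Helper50.PO.SUX
import Pool.Agent.Helper50.SE.NUM2
import Pool.Agent.Helper51.DO.E6
import Pool.Agent.Helper51.EM.ETY
import Pool.Agent.Helper52.DO.E5
import Pool.Agent.Helper52.ES.Class
import Pool.Agent.Helper52.ES.G
import Pool.Agent.Helper52.ES.GU1
import Pool.Agent.Helper52.ES.IJ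
import Pool.Agent.Helper52.ES.VM
import Pool.Agent.Helper52.ETSP.Main2
import Pool.Agent.Helper52.LCU.COR
import Pool.Agent.Helper52.PO.PALG
import Pool.Agent.Helper52.PO.PLK
import Pool.Agent.Helper52.PO.PRNG
import Pool.Agent.Helper52.SE.CST
import Pool.Agent.Helper52.TC8.FRV
import Pool.Agent.Helper53.BC.UNS
import Pool.Agent.Helper53.CL.PNP
import Pool.Agent.Helper53.CL.Tab
import Pool.Agent.Helper53.DO.D13
import Pool.Agent.Helper53.DO.W8
import Pool.Agent.Helper53.LCU.SUP
import Pool.Agent.Helper53.MT9.DEN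
import Pool.Agent.Helper53.MT9.END
import Pool.Agent.Helper53.MT9.TPI
import Pool.Agent.Helper53.SE.EX
import Pool.Agent.Helper53.TC8.GFREE
import Pool.Agent.Helper53.TC8.PMG
import Pool.Agent.Helper54.EM.CORE
import Pool.Agent.Helper55.BC.LB
import Pool.Agent.Helper55.DO.C4
import Pool.Agent.Helper55.DO.D5
import Pool.Agent.Helper55.E5.CGPOS
import Pool.Agent.Helper55.E5.CRED
import Pool.Agent.Helper55.E5.HDFULL
import Pool.Agent.Helper55.E5.KYX
import Pool.Agent.Helper55.E5.LOAD
import Pool.Agent.Helper55.E5.LOCQ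
import Pool.Agent.Helper55.E5.ORD3
import Pool.Agent.Helper55.E5.SCALE
import Pool.Agent.Helper55.E5.SMALL
import Pool.Agent.Helper55.E5.TAN
import Pool.Agent.Helper55.LCU.LNS
import Pool.Agent.Helper55.OP.CHOR
import Pool.Agent.Helper55.PO.ANC
import Pool.Agent.Helper55.PO.TLNK
import Pool.Agent.Helper57.DO.D9
import Pool.Agent.Helper57.DO.E10
import Pool.Agent.Helper57.DO.T10
import Pool.Agent.Helper57.DO.W1
import Pool.Agent.Helper57.EM.HCM
import Pool.Agent.Helper57.EM.LTR
import Pool.Agent.Helper57.SE.NAN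
import Pool.Agent.Helper58.CmdTM2
import Pool.Agent.Helper58.DO.T5
import Pool.Agent.Helper58.Gadgets
import Pool.Agent.Helper58.Grid.Parity
import Pool.Agent.Helper58.LCU.ZB
import Pool.Agent.Helper58.OP.DEC
import Pool.Agent.Helper58.PO.NUM
import Pool.Agent.Helper58.SE.FRM
import Pool.Agent.Helper58.Search
import Pool.Agent.Helper59.DO.D7
import Pool.Agent.Helper59.DO.T1
import Pool.Agent.Helper59.DO.T2
import Pool.Agent.Helper59.DO.X1d
import Pool.Agent.Helper59.ES.S5
import Pool.Agent.Helper59.ES.S8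
import Pool.Agent.Helper59.MI.REC
import Pool.Agent.Helper59.TC8.LLLA
import Pool.Agent.Helper6.MT9.HWT
import Pool.Agent.Helper60.DO.C2
import Pool.Agent.Helper60.DO.T6
import Pool.Agent.Helper60.DO.T9
import Pool.Agent.Helper60.TC8.STA2
import Pool.Agent.Helper61.EM.BCH
import Pool.Agent.Helper61.EM.TRB
import Pool.Agent.Helper61.SE.LB
import Pool.Agent.Helper62.PspAlg
import Pool.Agent.Helper62.TC8.NUM
import Pool.Agent.Helper62.TC8.ORI
import Pool.Agent.Helper63.DO.W1b
import Pool.Agent.Helper63.E5.TWOD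
import Pool.Agent.Helper63.ES.GU2
import Pool.Agent.Helper63.PO.TPOL
import Pool.Agent.Helper64.CanonDefs
import Pool.Agent.Helper65.EM.LNC
import Pool.Agent.Helper66.TC8.LAWT
import Pool.Agent.Helper66.TC8.PR
import Pool.Agent.Helper66.TC8.PROD
import Pool.Agent.Helper66.TC8.REC
import Pool.Agent.Helper67.DO.E20
import Pool.Agent.Helper67.DO.Gysin
import Pool.Agent.Helper67.DO.STAR
import Pool.Agent.Helper67.DO.X9
import Pool.Agent.Helper67.SE.SZF
import Pool.Agent.Helper68.BC.NUM
import Pool.Agent.Helper68.DO.D19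
import Pool.Agent.Helper68.LP.LPLowerBoundResult
import Pool.Agent.Helper68.SDP.Main
import Pool.Agent.Helper68.SDX.Arr
import Pool.Agent.Helper68.SDX.Bound
import Pool.Agent.Helper7.BC.SIZ
import Pool.Agent.Helper7.OP.PLC
import Pool.Agent.Helper7.PO.PINJ
import Pool.Agent.Helper70.DO.X6
import Pool.Agent.Helper71.BC.CHS
import Pool.Agent.Helper71.E5.FIVE2
import Pool.Agent.Helper71.E5.NOCR
import Pool.Agent.Helper71.E5.WCFA
import Pool.Agent.Helper71.MI.TOR
import Pool.Agent.Helper72.E5.PCONT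
import Pool.Agent.Helper72.E5.RP
import Pool.Agent.Helper72.EM.FDR
import Pool.Agent.Helper72.EM.LAM2
import Pool.Agent.Helper72.EM.PAR
import Pool.Agent.Helper72.EM.PRC
import Pool.Agent.Helper72.RM.ADS
import Pool.Agent.Helper72.WD.CNT
import Pool.Agent.Helper72.WE.DSC
import Pool.Agent.Helper72.WE.IDL
import Pool.Agent.Helper74.BC.COR
import Pool.Agent.Helper74.BC.EXTL
import Pool.Agent.Helper74.BC.NOT
import Pool.Agent.Helper74.DO.D10
import Pool.Agent.Helper74.DO.D17
import Pool.Agent.Helper74.DO.E9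
import Pool.Agent.Helper74.EM.HWM
import Pool.Agent.Helper74.LCU.LOW
import Pool.Agent.Helper74.OP.PROF
import Pool.Agent.Helper75.DO.D12
import Pool.Agent.Helper75.DO.E13
import Pool.Agent.Helper75.LCU.UF1
import Pool.Agent.Helper76.ES.NF
import Pool.Agent.Helper77.DO.T4
import Pool.Agent.Helper77.DO.W6
import Pool.Agent.Helper77.MI.UNL
import Pool.Agent.Helper77.PO.PALW
import Pool.Agent.Helper78.PO.RUN
import Pool.Agent.Helper78.SE.FDG
import Pool.Agent.Helper78.TC8.CNTID
import Pool.Agent.Helper79.DO.D4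
import Pool.Agent.Helper79.LCU.SH
import Pool.Agent.Helper79.SE.PTY
import Pool.Agent.Helper8.BC.LIT
import Pool.Agent.Helper8.PO.LIT
import Pool.Agent.Helper8.PO.PROW
import Pool.Agent.Helper8.PO.PTL
import Pool.Agent.Helper8.PO.SIG
import Pool.Agent.Helper8.PO.VTP
import Pool.Agent.Helper8.SE.SIZ
import Pool.Agent.Helper80.LCU.MG1
import Pool.Agent.Helper80.MT7.CYI
import Pool.Agent.Helper80.MT9.OI1
import Pool.Agent.Helper80.PO.CEL
import Pool.Agent.Helper80.PO.PCEL
import Pool.Agent.Helper80.SE.INJ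
import Pool.Agent.Helper80.SE.RMV
import Pool.Agent.Helper81.MI.UNS
import Pool.Agent.Helper81.OP.KerA
import Pool.Agent.Helper81.OP.KerA6
import Pool.Agent.Helper81.OP.KerB
import Pool.Agent.Helper81.OP.KerC00
import Pool.Agent.Helper81.OP.KerC01
import Pool.Agent.Helper81.OP.KerC02
import Pool.Agent.Helper81.OP.KerC03
import Pool.Agent.Helper81.OP.KerC04
import Pool.Agent.Helper81.OP.KerC10
import Pool.Agent.Helper81.OP.KerC11
import Pool.Agent.Helper81.OP.KerC12
import Pool.Agent.Helper81.OP.KerC13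
import Pool.Agent.Helper81.OP.KerC14
import Pool.Agent.Helper81.OP.KerC20
import Pool.Agent.Helper81.OP.KerC21
import Pool.Agent.Helper81.OP.KerC22
import Pool.Agent.Helper81.OP.KerC23
import Pool.Agent.Helper81.OP.KerC24
import Pool.Agent.Helper81.OP.KerC30
import Pool.Agent.Helper81.OP.KerC31
import Pool.Agent.Helper81.OP.KerC32
import Pool.Agent.Helper81.OP.KerC33
import Pool.Agent.Helper81.OP.KerC34
import Pool.Agent.Helper81.OP.KerU00
import Pool.Agent.Helper81.OP.KerU01
import Pool.Agent.Helper81.OP.KerU02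
import Pool.Agent.Helper81.OP.KerU03
import Pool.Agent.Helper81.OP.KerU10
import Pool.Agent.Helper81.OP.KerU11
import Pool.Agent.Helper81.OP.KerU12
import Pool.Agent.Helper81.OP.KerU13
import Pool.Agent.Helper81.OP.KerU20
import Pool.Agent.Helper81.OP.KerU21
import Pool.Agent.Helper81.OP.KerU22
import Pool.Agent.Helper81.OP.KerU23
import Pool.Agent.Helper81.OP.KerU30
import Pool.Agent.Helper81.OP.KerU31
import Pool.Agent.Helper81.OP.KerU32
import Pool.Agent.Helper81.OP.KerU33
import Pool.Agent.Helper81.OP.MainB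
import Pool.Agent.Helper81.OP.NEWH
import Pool.Agent.Helper81.OP.TGH
import Pool.Agent.Helper82.E5.KKT
import Pool.Agent.Helper82.E5.V1
import Pool.Agent.Helper82.EM.HLC
import Pool.Agent.Helper82.WD.RK1
import Pool.Agent.Helper82.WD.SPCM
import Pool.Agent.Helper82.WE.KRD
import Pool.Agent.Helper82.WE.TRI
import Pool.Agent.Helper83.LCU.FIN
import Pool.Agent.Helper83.SE.CN1
import Pool.Agent.Helper84.EM.FINA
import Pool.Agent.Helper84.LCU.CB
import Pool.Agent.Helper84.MT9.OI2
import Pool.Agent.Helper84.OPC.All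
import Pool.Agent.Helper84.PO.DIS
import Pool.Agent.Helper84.PO.LBU
import Pool.Agent.Helper84.PO.PNN
import Pool.Agent.Helper84.WD.REPK
import Pool.Agent.Helper84.WD.TR2
import Pool.Agent.Helper84.WE.TNS
import Pool.Agent.Helper85.DO.W9
import Pool.Agent.Helper85.MT9.TSC
import Pool.Agent.Helper86.PO.ALG
import Pool.Agent.Helper86.PO.CCN
import Pool.Agent.Helper86.PO.CSM
import Pool.Agent.Helper86.PO.PTV
import Pool.Agent.Helper86.PO.XIN
import Pool.Agent.Helper86.TC8.SIDEP
import Pool.Agent.Helper86.TC8B.B14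
import Pool.Agent.Helper86.TC8B.BMain
import Pool.Agent.Helper87.LCU.JN
import Pool.Agent.Helper88.LCU.K3
import Pool.Agent.Helper89.DO.E7c
import Pool.Agent.Helper89.PO.LBE
import Pool.Agent.Helper89.PO.PNXT
import Pool.Agent.Helper89.TC8.CORE
import Pool.Agent.Helper89.TC8.DEC
import Pool.Agent.Helper89.TC8.E3P
import Pool.Agent.Helper89.TC8.MAIN1
import Pool.Agent.Helper90.DO.W3
import Pool.Agent.Helper90.E5.KCC
import Pool.Agent.Helper91.DO.D15
import Pool.Agent.Helper91.DO.X4a
import Pool.Agent.Helper91.EM.CPL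
import Pool.Agent.Helper91.EM.DIM
import Pool.Agent.Helper91.EM.PRM
import Pool.Agent.Helper91.LCU.UFC
import Pool.Agent.Helper91.PO.STA
import Pool.Agent.Helper91.TC8.BRI
import Pool.Agent.Helper91.TC8.GLUE
import Pool.Agent.Helper92.MT7.BAL7
import Pool.Agent.Helper92.MT9.CMP
import Pool.Agent.Helper92.PO.FINAL
import Pool.Agent.Helper92.PO.PACC
import Pool.Agent.Helper92.PO.PSTT
import Pool.Agent.Helper92.PO.PSUM
import Pool.Agent.Helper92.PO.PTAB
import Pool.Agent.Helper92.PO.TBIT
import Pool.Agent.Helper92.PO.TCMP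
import Pool.Agent.Helper92.PO.TFOL
import Pool.Agent.Helper92.PO.TPAD
import Pool.Agent.Helper92.PO.TUNA
import Pool.Agent.Helper93.E5.HDX
import Pool.Agent.Helper93.TC8.CYL
import Pool.Agent.Helper93.TC8.TCH
import Pool.Agent.Helper94.PO.VTL
import Pool.Agent.Helper95.DO.X3
import Pool.Agent.Helper95.LCU.NIZ
import Pool.Agent.Helper96.DO.X4c
import Pool.Agent.Helper96.ES.LO
import Pool.Agent.Helper96.ES.S1
import Pool.Agent.Helper97.BC.CIRC
import Pool.Agent.Helper97.DO.D3
import Pool.Agent.Helper97.EM.LNR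
import Pool.Agent.Helper99.E5.NKA
import Pool.Agent.Helper99.LCU.LCZ

/-!
An aggregate module without declarations: it only collects modules of this package.
-/
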